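import Pool.Agent.helper75.WB.SpecI

set_option autoImplicit false

namespace Pool.Agent.WB

open Finset

theorem zt_inj_h18 {q q' : ℤ} {V : Finset ℕ} {x y w : ℕ → ℤ} {G : Finset (ℕ × ℕ × ℕ)}
    {t : ℕ × ℕ × ℕ → ℤ} (hF : Frame q q' V x y w G t) {p p' : ℕ} (hp : p ∈ V) (hp' : p' ∈ V)
    {s s' : ℤ} (h0 : zt x y w p s 0 = zt x y w p' s' 0)
    (h1 : zt x y w p s 1 = zt x y w p' s' 1) : p = p' := by
  have e1 := (hF.1 p hp).2.1
  have e2 := (hF.1 p' hp').2.1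
  have a0 : x p = x p' := h0
  have a1 : y p = y p' := h1
  rw [a0, a1, e2] at e1
  exact_mod_cast e1.symm

theorem zt_inj2_h18 {q q' : ℤ} {V : Finset ℕ} {x y w : ℕ → ℤ} {G : Finset (ℕ × ℕ × ℕ)}
    {t : ℕ × ℕ × ℕ → ℤ} (hF : Frame q q' V x y w G t) {p : ℕ} (hp : p ∈ V)
    {s s' : ℤ} (h : zt x y w p s = zt x y w p s') : s = s' := by
  have h2 : w p + s * p = w p + s' * p := congrFun h 2
  have hpos : ((p : ℕ) : ℤ) ≠ 0 := by
    have := (hF.1 p hp).1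
    positivity
  exact mul_right_cancel₀ hpos (add_left_cancel h2)

theorem mem_FF_h18 {x y w : ℕ → ℤ} {G : Finset (ℕ × ℕ × ℕ)} {t : ℕ × ℕ × ℕ → ℤ} {τ : ℕ}
    {e : V3 × V3} : e ∈ FF x y w G t τ ↔ ∃ g ∈ G, ∃ s ∈ Icc (-(τ : ℤ)) τ,
      e = (zt x y w g.2.1 s, zt x y w g.2.2 (s + t g)) := by
  unfold FF
  rw [mem_image]
  constructor
  · rintro ⟨b, hb, rfl⟩
    rw [mem_product] at hb
    exact ⟨b.1, hb.1, b.2, hb.2, rfl⟩
  · rintro ⟨g, hg, s, hs, rfl⟩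
    exact ⟨(g, s), mem_product.2 ⟨hg, hs⟩, rfl⟩

theorem IF2 : IF2_stmt := by
  intro q q' V x y w G t τ hF
  refine ⟨?_, ?_, ?_⟩
  · intro ζ ζ' η h h' h0 h1
    obtain ⟨g, hg, s, hs, hgs⟩ := mem_FF_h18.1 h
    obtain ⟨g', hg', s', hs', hgs'⟩ := mem_FF_h18.1 h'
    rw [Prod.mk.injEq] at hgs hgs'
    obtain ⟨rfl, hη⟩ := hgs
    obtain ⟨rfl, hη'⟩ := hgs'
    have hη2 : zt x y w g.2.2 (s + t g) = zt x y w g'.2.2 (s' + t g') := hη.symm.trans hη'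
    have e2 : g.2.2 = g'.2.2 := zt_inj_h18 hF (hF.2.1 g hg).2.1 (hF.2.1 g' hg').2.1
      (congrFun hη2 0) (congrFun hη2 1)
    have e1 : g.2.1 = g'.2.1 := zt_inj_h18 hF (hF.2.1 g hg).1 (hF.2.1 g' hg').1 h0 h1
    have e12 : g.2 = g'.2 := Prod.ext e1 e2
    have e0 : g.1 = g'.1 := hF.2.2 g hg g' hg' e12
    have eg : g = g' := Prod.ext e0 e12
    subst eg
    have := zt_inj2_h18 hF (hF.2.1 g hg).2.1 hη2
    have es : s = s' := add_right_cancel this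
    rw [es]
  · intro ζ η η' h h' h0 h1
    obtain ⟨g, hg, s, hs, hgs⟩ := mem_FF_h18.1 h
    obtain ⟨g', hg', s', hs', hgs'⟩ := mem_FF_h18.1 h'
    rw [Prod.mk.injEq] at hgs hgs'
    obtain ⟨hζ, rfl⟩ := hgs
    obtain ⟨hζ', rfl⟩ := hgs'
    have hζ2 : zt x y w g.2.1 s = zt x y w g'.2.1 s' := hζ.symm.trans hζ'
    have e1 : g.2.1 = g'.2.1 := zt_inj_h18 hF (hF.2.1 g hg).1 (hF.2.1 g' hg').1
      (congrFun hζ2 0) (congrFun hζ2 1)
    have e2 : g.2.2 = g'.2.2 := zt_inj_h18 hF (hF.2.1 g hg).2.1 (hF.2.1 g' hg').2.1 h0 h1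
    have e12 : g.2 = g'.2 := Prod.ext e1 e2
    have e0 : g.1 = g'.1 := hF.2.2 g hg g' hg' e12
    have eg : g = g' := Prod.ext e0 e12
    subst eg
    have es := zt_inj2_h18 hF (hF.2.1 g hg).1 hζ2
    rw [es]
  · unfold FF
    rw [card_image_of_injOn, card_product, Int.card_Icc]
    · congr 1
      omega
    · rintro ⟨g, s⟩ hb ⟨g', s'⟩ hb' hbb
      simp only [mem_coe, mem_product] at hb hb'
      have hζ2 : zt x y w g.2.1 s = zt x y w g'.2.1 s' := congrArg Prod.fst hbb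
      have hη2 : zt x y w g.2.2 (s + t g) = zt x y w g'.2.2 (s' + t g') :=
        congrArg Prod.snd hbb
      have e1 : g.2.1 = g'.2.1 := zt_inj_h18 hF (hF.2.1 g hb.1).1 (hF.2.1 g' hb'.1).1
        (congrFun hζ2 0) (congrFun hζ2 1)
      have e2 : g.2.2 = g'.2.2 := zt_inj_h18 hF (hF.2.1 g hb.1).2.1 (hF.2.1 g' hb'.1).2.1
        (congrFun hη2 0) (congrFun hη2 1)
      have e12 : g.2 = g'.2 := Prod.ext e1 e2
      have e0 : g.1 = g'.1 := hF.2.2 g hb.1 g' hb'.1 e12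
      have eg : g = g' := Prod.ext e0 e12
      subst eg
      have es := zt_inj2_h18 hF (hF.2.1 g hb.1).1 hζ2
      rw [es]

end Pool.Agent.WB
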